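import Mathlib
import Pool.Agent.Helper47.NagelDefs
import Pool.Agent.Helper47.NagelProof

/-!
The converse of Nagel's measure-zero theorem for peak-interpolation sets in the sphere fails in
every dimension `n ≥ 2`.
-/

namespace Pool.Agent.Results.MP_36132b_an.NagelConverse

open Metric Set MeasureTheory Pool.Agent.Helper47.Nagel

/-- For every `n ≥ 2` there is a compact subset `K` of the unit sphere of `ℂ^n` which is not a
(PI)-set, although every nowhere complex-tangential `C^1`-curve in the sphere meets `K` in a set of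
parameters of Lebesgue measure zero. -/
theorem result (n : ℕ) (hn : 2 ≤ n) :
    ∃ K : Set (EuclideanSpace ℂ (Fin n)), IsCompact K ∧ K ⊆ sphere 0 1 ∧ ¬ IsPISet n K ∧
      ∀ (a b : ℝ) (φ : ℝ → EuclideanSpace ℂ (Fin n)), ContDiffOn ℝ 1 φ (Icc a b) →
        (∀ t ∈ Icc a b, φ t ∈ sphere (0 : EuclideanSpace ℂ (Fin n)) 1) →
        (∀ t ∈ Icc a b, herm (derivWithin φ (Icc a b) t) (φ t) ≠ 0) →
        volume (Icc a b ∩ φ ⁻¹' K) = 0 :=
  main n hn

end Pool.Agent.Results.MP_36132b_an.NagelConverse
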